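import Pool.Agent.helper17.MK.Spec

set_option autoImplicit false

namespace Pool.Agent.MK

open Finset Real Pool.Agent.helper39.MT Pool.Agent.helper85.FC

private lemma WV_tot (W : ℕ) : (Nat.totient W : ℝ) = (W : ℝ) * ∏ p ∈ W.primeFactors, (1 - 1 / (p : ℝ)) := by
  have h := Nat.totient_eq_mul_prod_factors W
  have h2 : ((Nat.totient W : ℚ) : ℝ) = (((W : ℚ) * ∏ p ∈ W.primeFactors, (1 - (p : ℚ)⁻¹) : ℚ) : ℝ) := by
    rw [h]
  push_cast at h2
  rw [h2]
  congr 1
  refine Finset.prod_congr rfl fun p _ => ?_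
  rw [one_div]

theorem WV : WV_stmt := by
  intro W w hW h2 hWw
  have hge : ∀ p ∈ PS W ⌊w⌋₊, (3 : ℝ) ≤ p := by
    intro p hp
    rw [mem_PS] at hp
    obtain ⟨_, hpp, hpW⟩ := hp
    have h3 : p ≠ 2 := by
      rintro rfl
      exact hpW h2
    have h4 := hpp.two_le
    have h5 : 3 ≤ p := by omega
    exact_mod_cast h5
  have hWr : (0 : ℝ) < W := by exact_mod_cast hW
  have hw0 : 0 ≤ w := hWr.le.trans hWw
  have hdisj : Disjoint (PS W ⌊w⌋₊) W.primeFactors := by
    rw [Finset.disjoint_left]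
    intro p hp hp2
    rw [mem_PS] at hp
    exact hp.2.2 (Nat.dvd_of_mem_primeFactors hp2)
  have hun : RLS.PP 1 w = PS W ⌊w⌋₊ ∪ W.primeFactors := by
    ext p
    rw [mem_union, mem_PS, Nat.mem_primeFactors]
    unfold RLS.PP
    rw [mem_filter, mem_range]
    constructor
    · rintro ⟨h3, h4, _⟩
      by_cases h5 : p ∣ W
      · exact Or.inr ⟨h4, h5, hW.ne'⟩
      · exact Or.inl ⟨by omega, h4, h5⟩
    · rintro (⟨h3, h4, _⟩ | ⟨h4, h5, _⟩)
      · refine ⟨by omega, h4, ?_⟩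
        have := h4.two_le
        have h6 : (2 : ℝ) ≤ p := by exact_mod_cast this
        linarith
      · have h7 : p ≤ W := Nat.le_of_dvd hW h5
        have h8 : p ≤ ⌊w⌋₊ := by
          rw [Nat.le_floor_iff hw0]
          refine le_trans ?_ hWw
          exact_mod_cast h7
        refine ⟨by omega, h4, ?_⟩
        have := h4.two_le
        have h6 : (2 : ℝ) ≤ p := by exact_mod_cast this
        linarith
  have hV : Vw w = (∏ p ∈ PS W ⌊w⌋₊, (1 - 1 / (p : ℝ))) * ∏ p ∈ W.primeFactors, (1 - 1 / (p : ℝ)) := by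
    unfold Vw
    rw [hun, Finset.prod_union hdisj]
  have htot := WV_tot W
  have hφ : (0 : ℝ) < Nat.totient W := by
    have := Nat.totient_pos.2 hW
    exact_mod_cast this
  have hkey : ∏ p ∈ PS W ⌊w⌋₊, (1 - 1 / (p : ℝ)) = (W : ℝ) / Nat.totient W * Vw w := by
    rw [hV, htot]
    have h3 : ∏ p ∈ W.primeFactors, (1 - 1 / (p : ℝ)) ≠ 0 := by
      intro h4
      rw [h4, mul_zero] at htot
      exact hφ.ne' htot
    field_simp
  have hposV : 0 < Vw w := by
    unfold Vw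
    refine Finset.prod_pos fun p hp => ?_
    unfold RLS.PP at hp
    rw [mem_filter] at hp
    have h6 : (2 : ℝ) ≤ p := by exact_mod_cast hp.2.1.two_le
    have h7 : 1 / (p : ℝ) ≤ 1 / 2 := by gcongr
    linarith
  have hone : ∀ p ∈ PS W ⌊w⌋₊, 0 ≤ 1 - 1 / ((p : ℝ) - 1) ∧ 1 - 1 / ((p : ℝ) - 1) ≤ 1 - 1 / (p : ℝ) := by
    intro p hp
    have h3 := hge p hp
    have h4 : 1 / ((p : ℝ) - 1) ≤ 1 := by
      rw [div_le_one (by linarith)]
      linarith
    have h5 : 1 / (p : ℝ) ≤ 1 / ((p : ℝ) - 1) := by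
      apply one_div_le_one_div_of_le
      · linarith
      · linarith
    constructor
    · linarith
    · linarith
  have htwo : ∀ p ∈ PS W ⌊w⌋₊, 0 ≤ 1 - 2 / (p : ℝ) ∧ 1 - 2 / (p : ℝ) ≤ (1 - 1 / (p : ℝ)) ^ 2 := by
    intro p hp
    have h3 := hge p hp
    have h4 : 2 / (p : ℝ) ≤ 1 := by
      rw [div_le_one (by linarith)]
      linarith
    have h5 : (1 - 1 / (p : ℝ)) ^ 2 = 1 - 2 / (p : ℝ) + (1 / (p : ℝ)) ^ 2 := by ring
    constructor
    · linarith
    · rw [h5]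
      have := sq_nonneg (1 / (p : ℝ))
      linarith
  refine ⟨?_, ?_, ?_, ?_, hposV⟩
  · rw [← hkey]
    exact Finset.prod_le_prod (fun p hp => (hone p hp).1) fun p hp => (hone p hp).2
  · rw [← hkey, ← Finset.prod_pow]
    exact Finset.prod_le_prod (fun p hp => (htwo p hp).1) fun p hp => (htwo p hp).2
  · exact Finset.prod_nonneg fun p hp => (hone p hp).1
  · exact Finset.prod_nonneg fun p hp => (htwo p hp).1

end Pool.Agent.MK
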